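import Pool.Agent.H424.BM.Rat

/-!
# The leading value at the centre for abelian varieties, from the products over the prime powers, with exceptional
# cut-offs

Let `S` be a set of primes, and for every prime `p` not in `S` let `β_{p,1}, ..., β_{p,d}` be complex numbers of
absolute value at most `√p` whose power sums `t(p^k) = ∑ β_{p,i}^k` are real. For an abelian variety `A` over the
rational numbers of dimension `g`, with good reduction outside the finite set `S`, the eigenvalues of Frobenius on
`H¹` have this property, with `d = 2 g` (Weil), and `L(A, s) = ∏_{p ∉ S} ∏_i (1 - β_{p,i} p^{-s})⁻¹`. Let `F` be an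
entire continuation of the Euler product, which grows at most like a power of `|s|` in some half-plane
`Re s > 1 - η` (every continuation with the usual functional equation does). Let

`P(n) = exp (- ∑_{p^k ≤ n, p ∉ S} t(p^k) / (k p^k))`

be the inverse of the Euler product at `s = 1`, truncated at the prime powers `p^k ≤ n`. If `A` is the Jacobian of a
curve `C`, then `t(p^k) = p^k + 1 - #C(F_{p^k})`. Let `ρ` be a real number and `L > 0`.

(1) If there is a `δ > 0` such that for every `ε > 0` there are INFINITELY MANY `M` for which all but at most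
`M^(1-δ)` of the cut-offs `n ≤ M` satisfy `|P(n)/(log n)^ρ - e^{ργ}/L| ≤ ε`, then `F` has no zeros with `Re s > 1`,
`ρ = ord_{s=1} F` and `L` is the leading value `lim_{s → 1} F(s)/(s-1)^ρ`.

(2) The following are equivalent:
(i) `F` has no zeros with `Re s > 1`, `ρ = ord_{s=1} F` and `L = lim_{s → 1} F(s)/(s-1)^ρ`;
(ii) for every `ε > 0` there is a `δ > 0` such that for all large `M` all but `M^(1-δ)` of the `n ≤ M` satisfy
`|log P(n)| ≤ n^ε`, and for every `ε > 0` the sum of the `1/n` over the `n` with `|P(n)/(log n)^ρ - e^{ργ}/L| > ε` is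
finite;
(iii) for every `ε > 0` there is a `δ > 0` such that for infinitely many `M` all but `M^(1-δ)` of the `n ≤ M` satisfy
`log P(n) ≤ n^ε`, and for every `ε > 0` the set of the `n` with `|P(n)/(log n)^ρ - e^{ργ}/L| ≤ ε` has positive upper
logarithmic density.

So the formula of Birch and Swinnerton-Dyer, with `ρ` the rank and `L` the predicted value, together with the Riemann
hypothesis for `A`, is a statement on the numbers `P(n)`, in which exceptional cut-offs are allowed. Nothing is
assumed besides the continuation. For elliptic curves over `ℚ` and for ALL `n` the implication to (i) is Goldfeld's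
theorem (1982); Kuo and Murty, and Conrad, have further results, for all `n`.

Proof. (`Pool.Agent.H424.BX`, `BY`, `BM`.) The criterion of helper270 (starting files, `Mc.tfae_lead_real`) gives the
square integrability of `(log P(n) - ρ log log n + log L - ργ)²/n` from (i). The converse: if `F` has a zero with
`Re s > 1`, then for every `δ > 0` and all large `M` at least `M^(1-δ)` of the `n ≤ M` satisfy `log P(n) > n^ε`, by
the explicit formula with Gaussian weights and Plancherel's theorem.
-/

set_option autoImplicit false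

namespace Pool.Agent.Results.MP_dfae13_nt.LeadingValueWithExceptions

open Filter Topology Classical

variable {d : ℕ}

/-- For the primes `p` not in `S` the numbers `β p i` have absolute value at most `√p`, and the sums of their `k`-th
powers are real. -/
structure IsFrobenius (S : Set ℕ) (β : ℕ → Fin d → ℂ) : Prop where
  weil : ∀ p : ℕ, p.Prime → p ∉ S → ∀ i, ‖β p i‖ ≤ √p
  real : ∀ p : ℕ, p.Prime → p ∉ S → ∀ k : ℕ, (∑ i, β p i ^ k).im = 0

/-- The Euler product of the `(1 - β p i p^{-s})⁻¹` over the primes `p` not in `S`. -/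
noncomputable def LSer (S : Set ℕ) (β : ℕ → Fin d → ℂ) (s : ℂ) : ℂ :=
  ∏' p : {p : ℕ // p.Prime ∧ p ∉ S}, ∏ i, (1 - β p.1 i * (p.1 : ℂ) ^ (-s))⁻¹

/-- `F` is an entire function, equal to the Euler product for `Re s > 3/2`, which grows at most like a power of `|s|`
in some half-plane `Re s > 1 - η`, `η > 0`. -/
structure IsContinuation (S : Set ℕ) (β : ℕ → Fin d → ℂ) (F : ℂ → ℂ) : Prop where
  entire : Differentiable ℂ F
  eq : ∀ s : ℂ, 3 / 2 < s.re → F s = LSer S β s
  growth : ∃ (η C : ℝ) (κ : ℕ), 0 < η ∧ ∀ s : ℂ, 1 - η < s.re → ‖F s‖ ≤ C * (1 + ‖s‖) ^ κ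

/-- `P(n) = exp (- ∑ t(p^k) / (k p^k))`, the sum over the prime powers `p^k ≤ n`, `p` not in `S`, where `t(p^k)` is
the sum of the `k`-th powers of the `β p i`. -/
noncomputable def P (S : Set ℕ) (β : ℕ → Fin d → ℂ) (n : ℕ) : ℝ :=
  Real.exp (-∑ p ∈ (Finset.range (n + 1)).filter (fun p => p.Prime ∧ p ∉ S),
    ∑ k ∈ (Finset.Icc 1 n).filter (fun k => p ^ k ≤ n), (∑ i, β p i ^ k).re / (k * (p : ℝ) ^ k))

/-- `F` has no zeros with `Re s > 1`, `ρ` is a natural number and `F(s)/(s-1)^ρ` tends to `L` for `s → 1`. -/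
def HasLeadingValue (F : ℂ → ℂ) (ρ L : ℝ) : Prop :=
  (∀ s : ℂ, 1 < s.re → F s ≠ 0) ∧ ∃ m : ℕ, ρ = m ∧ Tendsto (fun s => F s / (s - 1) ^ m) (𝓝[≠] 1) (𝓝 (L : ℂ))

/-- `e^{ργ} / L` -/
noncomputable def A (ρ L : ℝ) : ℝ := Real.exp (ρ * Real.eulerMascheroniConstant) / L

/-- The number of the elements `n` of `T` with `1 ≤ n ≤ M`. -/
noncomputable def count (T : Set ℕ) (M : ℕ) : ℕ := {n : ℕ | 1 ≤ n ∧ n ≤ M ∧ n ∈ T}.ncard

/-- The sum of the `1/n` over the elements `n` of `T` with `1 ≤ n ≤ M`. -/
noncomputable def logSum (T : Set ℕ) (M : ℕ) : ℝ := ∑ n ∈ (Finset.Icc 1 M).filter (· ∈ T), (1 : ℝ) / n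

/-- For every `ε > 0` there is a `δ > 0` such that for all large `M` the inequality `|log P(n)| > n^ε` holds for at
most `M^(1-δ)` of the numbers `n ≤ M`. -/
def FewExceptions (S : Set ℕ) (β : ℕ → Fin d → ℂ) : Prop := ∀ ε : ℝ, 0 < ε → ∃ δ : ℝ, 0 < δ ∧ ∀ᶠ M : ℕ in atTop,
  (count {n : ℕ | (n : ℝ) ^ ε < |Real.log (P S β n)|} M : ℝ) ≤ (M : ℝ) ^ (1 - δ)

/-- For every `ε > 0` there is a `δ > 0` such that for infinitely many `M` the inequality `log P(n) > n^ε` holds for
at most `M^(1-δ)` of the numbers `n ≤ M`. -/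
def SometimesFewLarge (S : Set ℕ) (β : ℕ → Fin d → ℂ) : Prop := ∀ ε : ℝ, 0 < ε → ∃ δ : ℝ, 0 < δ ∧
  ∃ᶠ M : ℕ in atTop, (count {n : ℕ | (n : ℝ) ^ ε < Real.log (P S β n)} M : ℝ) ≤ (M : ℝ) ^ (1 - δ)

/-- For every `ε > 0` the inequality `|P(n)/(log n)^ρ - a| ≤ ε` holds for all `n` outside a set of finite logarithmic
measure. -/
def AlmostAlways (S : Set ℕ) (β : ℕ → Fin d → ℂ) (ρ a : ℝ) : Prop := ∀ ε : ℝ, 0 < ε → Summable fun n : ℕ =>
  if ε < |P S β n / Real.log n ^ ρ - a| then (1 : ℝ) / n else 0

/-- For every `ε > 0` the inequality `|P(n)/(log n)^ρ - a| ≤ ε` holds for all `n` in a set of positive upper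
logarithmic density. -/
def OnPositiveDensity (S : Set ℕ) (β : ℕ → Fin d → ℂ) (ρ a : ℝ) : Prop := ∀ ε : ℝ, 0 < ε →
  ∃ η : ℝ, 0 < η ∧ ∃ᶠ M : ℕ in atTop,
    η * Real.log M ≤ logSum {n : ℕ | |P S β n / Real.log n ^ ρ - a| ≤ ε} M

/-! ### Translation -/

section translation

open Pool.Agent.H424.BM Pool.Agent.H424.BY

variable {S : Set ℕ} {β : ℕ → Fin d → ℂ} {F : ℂ → ℂ}

theorem hw (h : IsFrobenius S β) (v : XQ S) (i : Fin d) :
    ‖bQ S β v i‖ ≤ (NQ S v : ℝ) ^ (((1 : ℕ) : ℝ) - 1 / 2) := by
  have h1 := h.weil v.1 v.2.1 v.2.2 i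
  rw [Real.sqrt_eq_rpow] at h1
  have e : ((1 : ℕ) : ℝ) - 1 / 2 = 1 / 2 := by norm_num
  rw [e]
  exact h1

theorem hr (h : IsFrobenius S β) (v : XQ S) (k : ℕ) : (∑ i, bQ S β v i ^ k).im = 0 :=
  h.real v.1 v.2.1 v.2.2 k

theorem ex (h : IsFrobenius S β) (hF : IsContinuation S β F) :
    Ex (NQ S) (aN (NQ S) 1 (bQ S β)) (fun s => F (1 + s)) where
  E := sysQ (hw h) (hr h)
  hreal := pow_real (two_le_NQ S) (hr h)
  diff := hF.entire.comp (differentiable_id.const_add 1)
  grow := by
    obtain ⟨η, C, κ, hη, hg⟩ := hF.growth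
    refine ⟨η, |C| * (1 + |(1 : ℝ)|) ^ κ, κ, hη, fun s hs => ?_⟩
    have := grow_shift (c := 1) hg s hs
    push_cast at this
    exact this
  eq := fun s hs => by
    rw [LE_eq (two_le_NQ S)]
    have h1 := hF.eq (1 + s) (by
      rw [Complex.add_re, Complex.one_re]
      linarith)
    rw [h1]
    unfold LSer
    push_cast
    rfl

theorem P_eq (h : IsFrobenius S β) (n : ℕ) : P S β n = PP (NQ S) (aN (NQ S) 1 (bQ S β)) n := by
  unfold P PP
  rw [Pl_sum (sysQ (hw h) (hr h))]
  simp only [pow_one]

theorem lead_iff {ρ L : ℝ} (hL : 0 < L) :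
    HasLeadingValue F ρ L ↔ Lead (fun s => F (1 + s)) ρ (A ρ L) := by
  unfold HasLeadingValue Lead NZ
  refine and_congr ?_ (exists_congr fun m => and_congr_right fun hm => ?_)
  · constructor
    · intro h s hs
      exact h (1 + s) (by
        rw [Complex.add_re, Complex.one_re]
        linarith)
    · intro h s hs
      have h1 : F (1 + (s - 1)) ≠ 0 := h (s - 1) (by
        rw [Complex.sub_re, Complex.one_re]
        linarith)
      rwa [add_sub_cancel] at h1
  · have e : Real.exp (m * Real.eulerMascheroniConstant) / A ρ L = L := by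
      unfold A
      rw [hm]
      have := Real.exp_pos (m * Real.eulerMascheroniConstant)
      field_simp
    rw [e]
    have t1 : Tendsto (fun s : ℂ => 1 + s) (𝓝[≠] 0) (𝓝[≠] 1) := by
      refine tendsto_nhdsWithin_of_tendsto_nhds_of_eventually_within _ ?_ ?_
      · have : Tendsto (fun s : ℂ => 1 + s) (𝓝 0) (𝓝 (1 + 0)) := tendsto_id.const_add 1
        rw [add_zero] at this
        exact this.mono_left nhdsWithin_le_nhds
      · filter_upwards [self_mem_nhdsWithin] with s hs
        intro h1
        exact hs (by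
          have h2 : 1 + s = 1 := h1
          have h3 : s = 0 := by
            rwa [add_eq_left] at h2
          exact h3)
    have t2 : Tendsto (fun s : ℂ => s - 1) (𝓝[≠] 1) (𝓝[≠] 0) := by
      refine tendsto_nhdsWithin_of_tendsto_nhds_of_eventually_within _ ?_ ?_
      · have : Tendsto (fun s : ℂ => s - 1) (𝓝 1) (𝓝 (1 - 1)) := tendsto_id.sub_const 1
        rw [sub_self] at this
        exact this.mono_left nhdsWithin_le_nhds
      · filter_upwards [self_mem_nhdsWithin] with s hs
        intro h1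
        exact hs (sub_eq_zero.1 h1)
    constructor
    · intro h
      refine (h.comp t1).congr fun s => ?_
      simp only [Function.comp_apply, add_sub_cancel_left]
    · intro h
      refine (h.comp t2).congr fun s => ?_
      simp only [Function.comp_apply, add_sub_cancel]

end translation

open Pool.Agent.H424.BM in
/-- **The order and the leading value from the products over the prime powers, with exceptional cut-offs.** -/
theorem result (S : Set ℕ) (β : ℕ → Fin d → ℂ) (hβ : IsFrobenius S β) (F : ℂ → ℂ) (hF : IsContinuation S β F)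
    (ρ L : ℝ) (hL : 0 < L) :
    (∀ δ : ℝ, 0 < δ → (∀ ε : ℝ, 0 < ε → ∃ᶠ M : ℕ in atTop,
        (count {n : ℕ | ε < |P S β n / Real.log n ^ ρ - A ρ L|} M : ℝ) ≤ (M : ℝ) ^ (1 - δ)) →
      HasLeadingValue F ρ L) ∧
    List.TFAE [
      HasLeadingValue F ρ L,
      FewExceptions S β ∧ AlmostAlways S β ρ (A ρ L),
      SometimesFewLarge S β ∧ OnPositiveDensity S β ρ (A ρ L)] := by
  have H := ex hβ hF
  have hA : 0 < A ρ L := div_pos (Real.exp_pos _) hL
  refine ⟨fun δ hδ h => ?_, ?_⟩
  · rw [lead_iff hL]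
    refine goldfeld H ρ hA hδ fun ε hε => ?_
    have h1 := h ε hε
    simp only [P_eq hβ] at h1
    exact h1
  · rw [lead_iff hL]
    unfold FewExceptions SometimesFewLarge AlmostAlways OnPositiveDensity
    simp only [P_eq hβ]
    exact crit_const H ρ hA

end Pool.Agent.Results.MP_dfae13_nt.LeadingValueWithExceptions
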