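import Pool.Agent.Helper891_XR.Xi
import Pool.Agent.Y44.XF.Mind

/-!
# The 2-part of the Birch and Swinnerton-Dyer conjecture for `E_D ⊗ M`, for all the quadratic twists of
# `X_0(14)` prime to `42`, in the towers of fields of odd degree

`E_D` is the quadratic twist by `D` of the modular curve `X_0(14)`, where `D = 1` modulo `4` is
squarefree, positive or negative.  `E ⊆ K` are fields of odd degree, contained in the cyclotomic field
`C` of `q`-th roots of unity, `q` a power of a prime, and `2` and `7` are inert in `K` and the narrow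
class number of `K` is odd; this is proved for `q = 3^n`, where `E ⊆ K` are any layers of the cyclotomic
`ℤ₃`-extension of `ℚ`.  For the primes `p ∣ D` we suppose that `Gal(K/E)` consists of powers of the
Frobenius automorphism at `p`, that is, that the primes of `E` above `p` are inert in `K`; the primes
`p ∣ D` may split in `E`.  For `q = 3^n` and `p ≠ 3` this holds if `p² - 1` is not divisible by
`9 [E:ℚ]`, so that for every `D` prime to `42` the condition holds for all the layers `E ⊆ K` of the
`ℤ₃`-extension if the degree of `E` is large enough (and for `E = ℚ` if the prime divisors of `D` are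
not `1` or `-1` modulo `9`, which is the case treated in the file `OddTensorTwists`).  `M = ℤ^g` is a
lattice with an action `ρ` of the Galois group of `K / ℚ` such that only zero is fixed by `Gal(K/E)`,
`g` arbitrary, and `A = E_D ⊗ M`, an abelian variety over `ℚ` of dimension `g`.

For every such `D` and `M`, without any condition on the rank or the Tate-Shafarevich group of `E_D` over
`E`, we prove the 2-part of the Birch and Swinnerton-Dyer conjecture for `A`: the groups `A(ℚ)` and
`A'(ℚ)`, for the dual `A' = E_D ⊗ M^∨`, are finite of odd order, `Ш(A/ℚ)[2^∞] = 0`, the `L`-function of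
`A` is entire, and `L(A, 1)` is a rational number that is a unit at 2 times `(∫_{E_D(ℝ)} |ω|) ^ g`.

The terms which do not appear.  Complex conjugation acts trivially on `M`, so that
`A(ℝ) = E_D(ℝ) ^ g`.  The Néron differential of `A` is the product of the Néron differentials of `E_D`
outside the prime `l ∣ q`, and it differs from it by a power of `l` as the action of the group of odd
order on the determinant of `M` is trivial.  At `2`, `7` and the primes that divide `D` the group of the
components of the Néron model of `A` over the residue field is `(Φ ⊗ M)^Frob` for the group `Φ` of `E_D`;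
the 2-part of `Φ` is of order two, or killed by two with an automorphism of order at most two, and the
powers of `Frob` contain the group `Gal(K/E)` of odd order that acts on `M` without invariants; at `l`
the 2-part is zero since `A` acquires good reduction over an extension of odd degree.  So the Tamagawa
numbers are odd.

The proof.  Algebraic side: an automorphism `γ` in `Gal(K/E)` preserves the bad places of `K`, and then
`b γ(b)` is a square for all the elements `b` of `K^×` that satisfy the local conditions of the descent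
with the isogenies of degree two; so `γ` acts trivially on the descent classes over `K`, while `Gal(K/E)`
acts without invariants on `M`.  Analytic side: only characters `χ` of `Gal(K/ℚ)` that are not trivial on
`Gal(K/E)` occur in `M`, so that `χ(p) ≠ 1` for the primes `p ∣ D`, and the Euler factors at these primes
that relate the sums of modular symbols for `E_D` and for `X_0(14)` are units at 2.
-/

set_option autoImplicit false

open NumberField NumberField.InfinitePlace IsDedekindDomain WeierstrassCurve MeasureTheory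

namespace Pool.Agent.Results.MP_dfae13_nt.TensorTwistsTower

open scoped Classical

open Pool.Agent.TH841.SH.D (Pt act Gal)

open Pool.Agent.Y682 (NCl)

/-- The quadratic twist `E_D` of `X_0(14)` (`D = 1` modulo `4`), with its global minimal equation
`y² + x y + y = x³ + ((D - 1)/4) x² + ((9 D² - 1)/2) x - (23 D³ + 1)/4`.  It is isomorphic to
`Y² = X (X² + 13 D X + 128 D²)` by `X = 4 (x - D)`, `Y = 4 (2 y + x + 1)`. -/
def twist (D : ℤ) : WeierstrassCurve ℤ :=
  ⟨1, (D - 1) / 4, 1, (9 * D ^ 2 - 1) / 2, -((23 * D ^ 3 + 1) / 4)⟩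

/-- The curve given by the equation of `W` over the ring `R`. -/
abbrev base (W : WeierstrassCurve ℤ) (R : Type) [CommRing R] : WeierstrassCurve R :=
  W.map (Int.castRingHom R)

/-- The number of the affine points `(x, y)` over the ring `R`. -/
noncomputable def pts (W : WeierstrassCurve ℤ) (R : Type) [CommRing R] : ℕ :=
  Nat.card {P : R × R // (base W R).toAffine.Equation P.1 P.2}

/-- The equation is minimal at the prime `v` of `ℚ`: no change of variables over `ℚ` that keeps the
coefficients integral at `v` decreases the valuation of the discriminant. -/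
def MinimalAt (W : WeierstrassCurve ℤ) (v : HeightOneSpectrum (𝓞 ℚ)) : Prop :=
  ∀ C : VariableChange ℚ, v.valuation ℚ (C • base W ℚ).a₁ ≤ 1 →
    v.valuation ℚ (C • base W ℚ).a₂ ≤ 1 → v.valuation ℚ (C • base W ℚ).a₃ ≤ 1 →
    v.valuation ℚ (C • base W ℚ).a₄ ≤ 1 → v.valuation ℚ (C • base W ℚ).a₆ ≤ 1 →
    v.valuation ℚ (C • base W ℚ).Δ ≤ v.valuation ℚ (base W ℚ).Δ

/-- `4 x³ + b₂ x² + 2 b₄ x + b₆ = (2 y + a₁ x + a₃)²`, where `b₂ = a₁² + 4 a₂`,
`b₄ = 2 a₄ + a₁ a₃`, `b₆ = a₃² + 4 a₆`. -/
def cubic (W : WeierstrassCurve ℤ) {R : Type} [CommRing R] (x : R) : R :=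
  4 * x ^ 3 + W.b₂ * x ^ 2 + 2 * W.b₄ * x + W.b₆

/-- `∫_{W(ℝ)} |ω|` with `ω = dx / (2 y + a₁ x + a₃)`, as an integral over `x`: two real points lie
over each `x` with `cubic x > 0`. -/
noncomputable def realPeriod (W : WeierstrassCurve ℤ) : ℝ :=
  2 * ∫ x in {x : ℝ | 0 < cubic W x}, 1 / √(cubic W x)

section tensor

/-! ### The abelian variety `A = E ⊗ M`, `M = ℤ^g`

Its points over an algebraic closure of `ℚ` are the `g`-tuples of points of `E`; the Galois group of `ℚ`
acts on them by its action on `E` and the matrices `R(σ)`. -/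

/-- The action of an integral matrix on `ℤ^g ⊗ G = G^g`. -/
def mat {G : Type} [AddCommGroup G] {g : ℕ} (A : Matrix (Fin g) (Fin g) ℤ) (P : Fin g → G) :
    Fin g → G := fun i => ∑ j, A i j • P j

variable {g : ℕ} (W : WeierstrassCurve ℤ) (R : Gal ℚ →* GL (Fin g) ℤ)

/-- The points of `A` over an extension of `ℚ` over which the action on `M` is trivial. -/
abbrev PtA (g : ℕ) (L : Type) [Field L] [Algebra ℚ L] : Type := Fin g → Pt (base W ℚ) L

/-- The action of the Galois group on the points of `A`: `σ` applied to the coordinates, and then the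
matrix `R(σ)`. -/
noncomputable def actA (σ : Gal ℚ) (P : PtA W g (AlgebraicClosure ℚ)) :
    PtA W g (AlgebraicClosure ℚ) :=
  mat (R σ : Matrix (Fin g) (Fin g) ℤ) (fun i => act (base W ℚ) σ.toAlgHom (P i))

/-- `A(ℚ)`. -/
def ptsA : Set (PtA W g (AlgebraicClosure ℚ)) := {P | ∀ σ : Gal ℚ, actA W R σ P = P}

/-- `f` is a continuous cocycle with values in `A`: `f (σ τ) = f σ + σ (f τ)`. -/
def IsCocycle (f : Gal ℚ → PtA W g (AlgebraicClosure ℚ)) : Prop :=
  IsLocallyConstant f ∧ ∀ σ τ : Gal ℚ, f (σ * τ) = f σ + actA W R σ (f τ)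

/-- `f` is a coboundary: `f σ = σ P - P`. -/
def IsCoboundary (f : Gal ℚ → PtA W g (AlgebraicClosure ℚ)) : Prop :=
  ∃ P : PtA W g (AlgebraicClosure ℚ), ∀ σ : Gal ℚ, f σ = actA W R σ P - P

/-- For every embedding of the algebraic closures the restriction of `f` to the absolute Galois
group of `K` is a coboundary: `f σ = τ P - P` for `τ` in this group with restriction `σ`. -/
def LocTriv (K : Type) [Field K] [Algebra ℚ K] (f : Gal ℚ → PtA W g (AlgebraicClosure ℚ)) : Prop :=
  ∀ ι : AlgebraicClosure ℚ →ₐ[ℚ] AlgebraicClosure K, ∃ P : PtA W g (AlgebraicClosure K),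
    ∀ (τ : Gal K) (σ : Gal ℚ), (∀ x, τ (ι x) = ι (σ x)) →
      (fun i => act (base W ℚ) ι (f σ i)) = mat (R σ : Matrix (Fin g) (Fin g) ℤ)
        (fun i => act (base W ℚ) (τ.toAlgHom.restrictScalars ℚ) (P i)) - P

/-- `f` is a continuous cocycle that is locally trivial at all the places of `ℚ`; its class is an
element of `Ш(A/ℚ)`, and this is zero if and only if `f` is a coboundary. -/
def IsShaCocycle (f : Gal ℚ → PtA W g (AlgebraicClosure ℚ)) : Prop :=
  IsCocycle W R f ∧ (∀ (p : ℕ) [Fact p.Prime], LocTriv W R ℚ_[p] f) ∧ LocTriv W R ℝ f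

end tensor

section lattice

variable {q g : ℕ} (ρ : (ZMod q)ˣ →* GL (Fin g) ℤ)

/-- The matrix `ρ(p)` of the Frobenius automorphism at a prime `p` that does not divide `q`, and zero
at the other prime (where the inertia group acts without invariants on `M`). -/
noncomputable def frob (p : ℕ) : Matrix (Fin g) (Fin g) ℤ :=
  if h : p.Coprime q then (ρ (ZMod.unitOfCoprime p h) : Matrix (Fin g) (Fin g) ℤ) else 0

/-- The Euler factor of `L(A, s)` at the prime `p`, `A = E ⊗ M`:
`det (1 - a_p p^(-s) ρ(p) + p^(1 - 2 s) ρ(p)²)⁻¹`, and `det (1 - a_p p^(-s) ρ(p))⁻¹` if `p` divides the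
discriminant of `E`, where `a_p = p - pts` as `pts` does not count the point at infinity. -/
noncomputable def euler (W : WeierstrassCurve ℤ) (s : ℂ) (p : ℕ) : ℂ :=
  (1 - ((((p : ℤ) - pts W (ZMod p) : ℤ) : ℂ) * (p : ℂ) ^ (-s)) •
      (frob ρ p).map (Int.cast : ℤ → ℂ) +
    (if (p : ℤ) ∣ W.Δ then 0 else (p : ℂ) ^ (1 - 2 * s)) •
      ((frob ρ p).map (Int.cast : ℤ → ℂ)) ^ 2).det⁻¹

end lattice

/-- The contragredient: `A ↦ (A⁻¹)ᵀ`.  It gives the action on the dual lattice `M^∨`. -/
noncomputable def contra (g : ℕ) : GL (Fin g) ℤ →* GL (Fin g) ℤ where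
  toFun A := ⟨((A⁻¹ : GL (Fin g) ℤ) : Matrix (Fin g) (Fin g) ℤ).transpose,
    ((A : GL (Fin g) ℤ) : Matrix (Fin g) (Fin g) ℤ).transpose, by
      rw [← Matrix.transpose_mul, ← Units.val_mul, mul_inv_cancel, Units.val_one,
        Matrix.transpose_one], by
      rw [← Matrix.transpose_mul, ← Units.val_mul, inv_mul_cancel, Units.val_one,
        Matrix.transpose_one]⟩
  map_one' := by
    apply Units.ext
    show ((1⁻¹ : GL (Fin g) ℤ) : Matrix (Fin g) (Fin g) ℤ).transpose = 1
    rw [inv_one, Units.val_one, Matrix.transpose_one]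
  map_mul' A B := by
    apply Units.ext
    show (((A * B)⁻¹ : GL (Fin g) ℤ) : Matrix (Fin g) (Fin g) ℤ).transpose =
      ((A⁻¹ : GL (Fin g) ℤ) : Matrix (Fin g) (Fin g) ℤ).transpose *
        ((B⁻¹ : GL (Fin g) ℤ) : Matrix (Fin g) (Fin g) ℤ).transpose
    rw [mul_inv_rev, Units.val_mul, Matrix.transpose_mul]

/-- **The 2-part of the Birch and Swinnerton-Dyer conjecture** for `A = E ⊗ M` over `ℚ`, all the terms
being odd: the equation of `E` is minimal; the groups of the rational points of `A` and of its dual are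
finite of odd order; the 2-primary part of the Tate-Shafarevich group is zero; the `L`-function is
entire and its order at `s = 1` is the rank `0`; and `L(A, 1) = r (∫_{E(ℝ)} |ω|) ^ g`, where `r` is a
rational number and a unit at 2.  Here `κ` is the cyclotomic character, and `ρ ∘ κ` the action of the
Galois group of `ℚ` on `M`. -/
structure TwoPart (W : WeierstrassCurve ℤ) {q g : ℕ} (ρ : (ZMod q)ˣ →* GL (Fin g) ℤ)
    (κ : Gal ℚ →* (ZMod q)ˣ) : Prop where
  minimal : ∀ v : HeightOneSpectrum (𝓞 ℚ), MinimalAt W v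
  points : Finite (ptsA W (ρ.comp κ)) ∧ Odd (Nat.card (ptsA W (ρ.comp κ)))
  dual : Finite (ptsA W ((contra g).comp (ρ.comp κ))) ∧
    Odd (Nat.card (ptsA W ((contra g).comp (ρ.comp κ))))
  sha : ∀ f, IsShaCocycle W (ρ.comp κ) f → ∀ k : ℕ, IsCoboundary W (ρ.comp κ) (2 ^ k • f) →
    IsCoboundary W (ρ.comp κ) f
  formula : ∃ L : ℂ → ℂ, Differentiable ℂ L ∧
    (∀ s : ℂ, 3 / 2 < s.re → HasProd (fun p : Nat.Primes => euler ρ W s p) (L s)) ∧
    analyticOrderAt L 1 = 0 ∧ 0 < realPeriod W ∧
    ∃ r : ℚ, L 1 = r * ((realPeriod W ^ g : ℝ) : ℂ) ∧ r ≠ 0 ∧ padicValRat 2 r = 0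

/-- On `K` the automorphism `σ` is a power of the Frobenius automorphism at `p`, i.e. of the
automorphism `φ` of the cyclotomic field `C` that raises the `q`-th roots of unity to the power `p`. -/
def FrobPow {C : Type} [Field C] [NumberField C] (q p : ℕ) (K : IntermediateField ℚ C)
    (σ : C ≃ₐ[ℚ] C) : Prop :=
  ∃ φ : C ≃ₐ[ℚ] C, (∀ ζ : C, ζ ^ q = 1 → φ ζ = ζ ^ p) ∧ ∃ k : ℕ, ∀ x ∈ K, σ x = (φ ^ k) x

/-- **Main theorem.** Let `q` be a power of a prime, prime to `14`, and let `E ⊆ K` be subfields of the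
`q`-th cyclotomic field `C`, of odd degree.  Suppose that `q` is a power of three, or that `2` and `7` are
inert in `K` and the narrow class number of `K` is odd.  Let `D = 1` modulo `4` be squarefree, positive
or negative, such that the prime divisors `p` of `D` do not divide `14 q`, and such that on `K` all the
automorphisms which are trivial on `E` are powers of the Frobenius automorphism at `p`, or `q` is a power
of three and `9 [E:ℚ]` does not divide `p² - 1`.  Let `ρ` be an action of `(ℤ/q)ˣ = Gal(C/ℚ)` on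
`M = ℤ^g`, where `g` is arbitrary, that is trivial on `Gal(C/K)`, such that `Gal(C/E)` fixes no nonzero
vector.  Then the 2-part of the Birch and Swinnerton-Dyer conjecture holds for `A = E_D ⊗ M`: the orders
of `A(ℚ)`, `A'(ℚ)` are odd, `Ш(A)[2^∞] = 0` and `L(A, 1)` is a unit at 2 times the period. -/
theorem result (q : ℕ) [NeZero q] (hq : IsPrimePow q) (hco : q.Coprime 14)
    (C : Type) [Field C] [NumberField C] [IsCyclotomicExtension {q} ℚ C]
    (E K : IntermediateField ℚ C) (hEK : E ≤ K) (hodd : Odd (Module.finrank ℚ K))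
    (hcl : 3 ∣ q ∨ ((Ideal.span {((2 : ℕ) : 𝓞 K)}).IsPrime ∧
      (Ideal.span {((7 : ℕ) : 𝓞 K)}).IsPrime ∧ Odd (Nat.card (NCl K))))
    (D : ℤ) (hD : Squarefree D) (hD4 : D % 4 = 1)
    (hDp : ∀ p : ℕ, p.Prime → (p : ℤ) ∣ D → ¬ p ∣ 14 * q ∧
      ((∀ σ : C ≃ₐ[ℚ] C, (∀ x ∈ E, σ x = x) → FrobPow q p K σ) ∨
        (3 ∣ q ∧ ¬ 9 * Module.finrank ℚ E ∣ p ^ 2 - 1)))
    (g : ℕ) (ρ : (ZMod q)ˣ →* GL (Fin g) ℤ)
    (hρ : ∀ σ : C ≃ₐ[ℚ] C, (∀ x ∈ K, σ x = x) →
      ρ (IsCyclotomicExtension.Rat.galEquivZMod q C σ) = 1)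
    (hinv : ∀ x : Fin g → ℤ, (∀ σ : C ≃ₐ[ℚ] C, (∀ y ∈ E, σ y = y) →
      (ρ (IsCyclotomicExtension.Rat.galEquivZMod q C σ) : Matrix (Fin g) (Fin g) ℤ).mulVec x = x) →
        x = 0)
    (κ : Gal ℚ →* (ZMod q)ˣ)
    (hκ : ∀ (σ : Gal ℚ) (ζ : AlgebraicClosure ℚ), ζ ^ q = 1 → σ ζ = ζ ^ ((κ σ : ZMod q)).val) :
    TwoPart (twist D) ρ κ := by
  obtain ⟨⟨a1, a2, a3⟩, L, b1, b2, r, b3, b4, b5, b6⟩ := Pool.Agent.Helper891_XR.main' q hq hco C E K
    hEK hodd hcl D hD hD4 hDp g ρ hρ hinv κ hκ
  have hD14 : (D.natAbs).Coprime 14 := by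
    refine Nat.coprime_of_dvd ?_
    intro p hp hpd' hp14
    exact (hDp p hp (Int.natCast_dvd.2 hpd')).1 (dvd_mul_of_dvd_left hp14 _)
  refine ⟨?_, a1, a2, ?_, L, b1, b2, ?_, b6, r, b5, b3, b4⟩
  · exact Pool.Agent.Y44.XF.s_mind D hD hD4 hD14 ℚ
      (fun p hp _ => Pool.Agent.Y682.XF.prime_Q hp)
  · intro f hf k hk
    exact a3 f hf k hk
  · refine analyticOrderAt_eq_zero.2 (Or.inr ?_)
    rw [b5]
    refine mul_ne_zero (Rat.cast_ne_zero.2 b3) ?_
    have h1 : (realPeriod (twist D)) ^ g ≠ 0 := (pow_pos b6 g).ne'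
    exact_mod_cast h1

end Pool.Agent.Results.MP_dfae13_nt.TensorTwistsTower
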